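import Mathlib

/-!
Circuits of a list of vectors, the Jacobian ideal, and syzygetic ideals.
-/

namespace Pool.Agent.MP_1ca51f_al

/-- A circuit: an inclusion-minimal set of indices whose vectors are linearly dependent. -/
def IsCircuit (k : Type*) [Field k] {V : Type*} [AddCommGroup V] [Module k V] {m : ℕ}
    (l : Fin m → V) (C : Finset (Fin m)) : Prop :=
  Minimal (fun D : Finset (Fin m) => ¬ LinearIndependent k (fun i : D => l i)) C

/-- The Jacobian ideal, generated by the partial derivatives. -/
noncomputable def jacobianIdeal {k : Type*} [Field k] {n : ℕ} (f : MvPolynomial (Fin n) k) :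
    Ideal (MvPolynomial (Fin n) k) :=
  Ideal.span (Set.range fun j => MvPolynomial.pderiv j f)

/-- `J` is syzygetic: the natural map `Sym(J) → R` is injective on the degree two part
`Sym²(J)` of the symmetric algebra, the span of the products of two elements of `J`. -/
def IsSyzygetic {R : Type*} [CommRing R] (J : Ideal R) : Prop :=
  ∀ s ∈ LinearMap.range (SymmetricAlgebra.ι R J) ^ 2,
    SymmetricAlgebra.lift J.subtype s = 0 → s = 0

end Pool.Agent.MP_1ca51f_al
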